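import Pool.Agent.U365.POW.J
import Pool.Agent.Results.MP_18a8a6_lc.MultiplicativeValues

/-!
# Primitive roots modulo EVERY prime near sums of proper divisors and near the values `α m + β f(m)`

Let `s(m)` be the sum of the proper divisors of `m`, let `G` be a function with steps bounded below by a positive constant and
growth at most `v^d` (for example `G v = v`), `κ ≥ 0` and `d ε + κ < 1`. One polynomial-time computable list `F p`, which only
depends on `ε` and `B`, has the following property. For a set of `m` of lower density at least `1 - d ε - κ`, for EVERY prime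
`p` with `|p - G (s(m))| ≤ s(m)^κ` all but a fraction `(size p)^(-B)` of the entries of `F p` are primitive roots modulo `p`,
and the same holds for `m - φ(m)`. More generally, this holds for almost all `m` with a divisor `≥ m^(d ε + κ + ρ)` which is a
prime or the product of two different primes, and (with a power saving in the number of exceptions) for ALL the values
`g = α m + β f(m)`, `|α|, |β| ≤ N^δ`, `g ≥ N^(1-δ)`, of a multiplicative function `f` with `f p = p + c`.

Proof. There are at most `x^ε` exceptional primes (starting theorem). Let `m = k v p` with large primes `p ≠ v`. Then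
`g = A v p + B (v + p) + B c`, `A = α k + β f(k)`, `B = β c f(k)`, and so `(A v + B) (A p + B) = A g + B² - A B c`: for given `g`,
`k`, `α`, `β` there are only `N^o(1)` possibilities for `p` and `v`, and the number of the `k` is at most
`N^(1 - d ε - κ - ρ)`. If `A = 0`, or if the right side is `0`, then `g` is too small.

If the exponent `e` is smaller than `1/2`, no divisor is needed: the property holds for almost all `m` (for all `m ≤ N` but at
most `N / (log N) ^ A`, for every `A`), for all `α ≠ 0`, `β`. Here we use the divisors `D` of `m` without small prime factors: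
`α m` is congruent to `g` modulo `f(D)`; if the size of all such `D` is inconvenient, then `m = R D` where the prime factors of
`D` are so large that `D` lies in a short interval which is given by `R` and `g`.
-/

set_option autoImplicit false

namespace Pool.Agent.Results.MP_18a8a6_lc.AliquotValues

open Finset
open Pool.Agent.U365.POW (Law law_nat law_mono)
open Pool.Agent.N733.TG (Expanding)
open Pool.Agent.Results.MP_18a8a6_lc.MultiplicativeValues (PolyTimeList IsPrimRoot MostlyPrimRoots prim_of_gen)

/-- For every prime `p` with `|p - G g| ≤ g^κ`, all but a fraction `(size p) ^ (-B)` of the entries of the list `F p` are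
primitive roots modulo `p`. -/
def Near (F : ℕ → List ℕ) (B : ℕ) (G : ℕ → ℝ) (κ : ℝ) (g : ℕ) : Prop :=
  ∀ p : ℕ, p.Prime → |(p : ℝ) - G g| ≤ (g : ℝ) ^ κ → MostlyPrimRoots F B p

open Classical in
/-- **Theorem.** For every `ε > 0` and every `B` there are `C` and a polynomial-time computable list `F p` of `n ^ C` numbers, `n`
the number of binary digits of `p`, such that the following holds. Let `G` have steps `≥ a > 0` and growth at most `v^d`, let `κ
≥ 0` and `d ε + κ < 1`. The property `Near` holds for the values of similar functions as the aliquot sum with the exponent `d ε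
+ κ` (`Law`): if this exponent is smaller than `1/2`, then (1) for ALL `α m + β f(m)` at almost all `m`, and so for `s(m)` and
`m - φ(m)` for almost all `m`; in general, (2) at almost all the `m` with a divisor `≥ m ^ (d ε + κ + ρ)` which is a prime or
the product of two different primes, and for `s(m)` and `m - φ(m)` for a set of `m` of lower density at least `1 - (d ε + κ)`. -/
theorem result : ∀ (ε : ℝ), 0 < ε → ∀ B : ℕ, ∃ (C : ℕ) (F : ℕ → List ℕ), PolyTimeList F ∧
      (∀ p : ℕ, (F p).length = p.size ^ C) ∧
      ∀ (G : ℕ → ℝ) (d κ : ℝ), Expanding G d → 0 ≤ κ → d * ε + κ < 1 →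
        Law (d * ε + κ) (Near F B G κ) := by
  intro ε hε B
  set ε' : ℝ := min ε (1 / 2) with hε'
  have hε0 : 0 < ε' := lt_min hε (by norm_num)
  obtain ⟨A, hA⟩ := H595R2.PR.Gam_top ε' hε0
  obtain ⟨x₁, hx₁⟩ := hA A le_rfl
  obtain ⟨p₀, hp₀⟩ := H595R2.PR.core A (A + B + 2)
  set F := H595R2.PR.cands A (A + B + 2) with hF
  have hlen : ∀ p : ℕ, (F p).length = p.size ^ (A + B + 2) := fun p => by
    simp [hF, H595R2.PR.cands]
  have hmain : ∀ p : ℕ, p₀ ≤ p → p.Prime → H595R2.PR.Gam p (p.size ^ A) = ⊤ →
      MostlyPrimRoots F B p := by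
    intro p hp hpp ht
    have h0 : #{i ∈ range (p.size ^ (A + B + 2)) | ¬ IsPrimRoot p ((F p).getD i 0)} ≤
        p.size ^ (A + 1) := by
      refine le_trans (card_le_card ?_) ((hp₀ p hp hpp).trans (by rw [pow_succ]))
      intro i hi
      obtain ⟨h1, h2⟩ := mem_filter.1 hi
      exact mem_filter.2 ⟨h1, fun hg => h2 (prim_of_gen hpp hg ht)⟩
    unfold MostlyPrimRoots
    rw [hlen]
    calc p.size ^ B * _ ≤ p.size ^ B * p.size ^ (A + 1) := Nat.mul_le_mul_left _ h0
      _ = p.size ^ (A + B + 1) := by ring
      _ ≤ p.size ^ (A + B + 2) := Nat.pow_le_pow_right (Nat.size_pos.2 hpp.pos) (by omega)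
  refine ⟨A + B + 2, F, H595R2.PR.polyTime_cands A (A + B + 2), hlen, ?_⟩
  intro G d κ hG hκ h1
  have hV := law_nat {p : ℕ | p.Prime ∧ ¬ MostlyPrimRoots F B p} hG (s := ε)
    (κ := κ) hε.le hκ h1 (by
      intro δ hδ
      refine ⟨(x₁ : ℝ) + p₀ + 1, fun X hX => ?_⟩
      have hX1 : (1 : ℝ) ≤ X := by exact_mod_cast hX
      have hXp : (1 : ℝ) ≤ (X : ℝ) ^ (ε + δ) := Real.one_le_rpow hX1 (by positivity)
      have hsub : (Ioc 0 X).filter (fun t => t ∈ {p : ℕ | p.Prime ∧ ¬ MostlyPrimRoots F B p}) ⊆
          range p₀ ∪ (range (X + 1)).filter (fun p => p.Prime ∧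
            H595R2.PR.Gam p (p.size ^ A) ≠ ⊤) := by
        intro p hp
        obtain ⟨h1, h2, h3⟩ := mem_filter.1 hp
        rw [mem_union, mem_range]
        by_contra hc
        push Not at hc
        obtain ⟨h4, h5⟩ := hc
        have h6 : H595R2.PR.Gam p (p.size ^ A) = ⊤ := by
          by_contra h7
          exact h5 (mem_filter.2 ⟨mem_range.2 (by have := (mem_Ioc.1 h1).2; omega), h2, h7⟩)
        exact h3 (hmain p h4 h2 h6)
      have h9 := (card_le_card hsub).trans (card_union_le _ _)
      rw [card_range] at h9
      have h10 : (((Ioc 0 X).filter (fun t => t ∈ {p : ℕ | p.Prime ∧ ¬ MostlyPrimRoots F B p})).card : ℝ) ≤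
          p₀ + #((range (X + 1)).filter (fun p => p.Prime ∧
          H595R2.PR.Gam p (p.size ^ A) ≠ ⊤)) := by exact_mod_cast h9
      have h11 : (#((range (X + 1)).filter (fun p => p.Prime ∧
          H595R2.PR.Gam p (p.size ^ A) ≠ ⊤)) : ℝ) ≤ (x₁ : ℝ) + (X : ℝ) ^ (ε + δ) := by
        rcases le_total x₁ X with hx | hx
        · refine (hx₁ X hx).trans ?_
          have h12 : (X : ℝ) ^ ε' ≤ (X : ℝ) ^ (ε + δ) :=
            Real.rpow_le_rpow_of_exponent_le hX1 ((min_le_left _ _).trans (by linarith))
          have h13 : (0 : ℝ) ≤ x₁ := by positivity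
          linarith
        · have h12 : (#((range (X + 1)).filter (fun p => p.Prime ∧
              H595R2.PR.Gam p (p.size ^ A) ≠ ⊤)) : ℝ) ≤ X := by
            have h13 : (range (X + 1)).filter (fun p => p.Prime ∧
                H595R2.PR.Gam p (p.size ^ A) ≠ ⊤) ⊆ Ioc 0 X := by
              intro p hp
              obtain ⟨h1, h2, _⟩ := mem_filter.1 hp
              exact mem_Ioc.2 ⟨h2.pos, by have := mem_range.1 h1; omega⟩
            have h14 := card_le_card h13
            rw [Nat.card_Ioc, Nat.sub_zero] at h14
            exact_mod_cast h14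
          have h15 : (X : ℝ) ≤ x₁ := by exact_mod_cast hx
          linarith
      have h16 : (0 : ℝ) ≤ (x₁ : ℝ) + p₀ := by positivity
      have h17 : (0 : ℝ) ≤ ((x₁ : ℝ) + p₀) * ((X : ℝ) ^ (ε + δ) - 1) :=
        mul_nonneg h16 (by linarith)
      have h18 : (x₁ : ℝ) + p₀ + (X : ℝ) ^ (ε + δ) ≤ ((x₁ : ℝ) + p₀ + 1) * (X : ℝ) ^ (ε + δ) := by
        nlinarith
      refine le_trans ?_ h18
      refine le_trans (le_of_eq ?_) (h10.trans (by linarith))
      congr!)
  have hmono : ∀ g : ℕ, (∀ n : ℕ, |(n : ℝ) - G g| ≤ (g : ℝ) ^ κ → 1 ≤ n ∧ n ∉ {p : ℕ | p.Prime ∧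
      ¬ MostlyPrimRoots F B p}) → Near F B G κ g := by
    intro g hg p hp hw
    by_contra hno
    exact (hg p hw).2 ⟨hp, hno⟩
  exact law_mono hV hmono

end Pool.Agent.Results.MP_18a8a6_lc.AliquotValues
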