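import Pool.Agent.U536.CF.F
import Pool.Agent.Results.MP_18a8a6_lc.MultiplicativeValues

/-!
# Primitive roots modulo EVERY prime near integers with a large common factor with a value of a multiplicative function

Let `f` be a positive multiplicative function of at most polynomial growth such that `f p ≤ M p` for the large primes `p`,
with different values at different large primes; for example Euler's function or the sum of the divisors. Let `G` have
steps bounded below by a positive constant and growth at most `v^d`, for example `α v^d`. Let `b < 1` and `0 ≤ c < 2 b -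
1`. For every `ε > 0` and every `B` there are `C` and ONE polynomial-time computable list `F p` of `n ^ C` numbers, `n`
the number of binary digits of `p`, which does not depend on the other data, with the following property. For all `m ≤ N`
but `N exp (-(log N)^c)`, for EVERY integer `w ≥ exp ((log N)^b)` with `gcd(w, f(m)) ≥ w^ρ`, EVERY prime `p` with `|p - G
w| ≤ w^κ` is such that all but a fraction `(size p)^(-B)` of the entries of the list `F p` are primitive roots modulo `p`,
if `κ ≥ 0` and `d ε + κ < ρ ≤ 1`. The integers `w` include all large divisors of `f(m)` and their multiples by small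
integers; for Euler's function, the orders of the elements of the group of units modulo `m`.

Proof. Write `m = k u` with `u` squarefree and composed of primes larger than `N^(1/J)`, `J = (log N)^a`, and `k ≤ exp (4
(log N)^a)`; this is possible for all `m ≤ N` but very few. If `v ∣ f(k) f(u)`, then `v = g v'` with `g ∣ f(k)` and `v' ∣
∏ f(p)`, and the number of such `u ≤ N / k` is at most `N / (k v')` times `(log N)^O(J)` times the number `τ_J(v')` of the
ordered factorizations of `v'` into `J` factors. The inequality `τ_J^q ≤ τ_K` for `K ≥ J^q` and Hölder's inequality bound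
the sum over the sparse set of the exceptional `v`. The file `MultiplicativeValues` of the starting library treats the
integers `w = f(m)`, with `N / (log N)^U` exceptions.
-/

set_option autoImplicit false

namespace Pool.Agent.Results.MP_18a8a6_lc.CommonFactors

open Finset
open Pool.Agent.N733.TG (LM Expanding lm_totient lm_sigma expanding_pow)
open Pool.Agent.U536.CF (Common common_win_nat common_of_dvd common_order)
open Pool.Agent.Results.MP_18a8a6_lc.MultiplicativeValues (PolyTimeList IsPrimRoot MostlyPrimRoots prim_of_gen)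

open Classical in
/-- **Primitive roots modulo EVERY prime near integers with a large common factor with a value of a multiplicative function.**
For every `ε > 0` and every `B` there are `C` and ONE polynomial-time computable list `F p` of `n ^ C` numbers, `n` the
number of binary digits of `p`, which does not depend on the other data, with the following property. Let `f` be
multiplicative and positive, of at most polynomial growth, with `f p ≤ M p` at the large primes, and injective there. Let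
`G` have steps `≥ a > 0` and growth at most `v^d`. Let `b < 1` and `0 ≤ c < 2 b - 1`, `κ ≥ 0` and `d ε + κ < ρ ≤ 1`. For
all large `N`, for all `m ≤ N` but `N exp (-(log N)^c)`, for EVERY integer `w ≥ exp ((log N)^b)` with `gcd(w, f(m)) ≥
w^ρ`, EVERY prime `p` with `|p - G w| ≤ w^κ` is such that all but a fraction `(size p)^(-B)` of the entries of the list `F
p` are primitive roots modulo `p`. All divisors `w ≥ exp ((log N)^b)` of `f(m)` are such integers `w`, and for Euler's
function the orders `≥ exp ((log N)^b)` of the units modulo `m`. Euler's function and the sum of the divisors are examples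
of `f`, and `α v^d` with `α > 0`, `d ≥ 1` is an example of `G`. -/
theorem result :
    (∀ (ε : ℝ), 0 < ε → ∀ B : ℕ, ∃ (C : ℕ) (F : ℕ → List ℕ), PolyTimeList F ∧
      (∀ p : ℕ, (F p).length = p.size ^ C) ∧
      ∀ f : ℕ → ℕ, LM f → ∀ (G : ℕ → ℝ) (d κ ρ b₁ c₁ : ℝ), Expanding G d → 0 ≤ κ → d * ε + κ < ρ → ρ ≤ 1 → b₁ < 1 → 0 ≤ c₁ → c₁ < 2 * b₁ - 1 →
        ∃ N₀ : ℕ, ∀ N : ℕ, N₀ ≤ N →
          ({m : ℕ | 1 ≤ m ∧ m ≤ N ∧ ¬ ∀ w : ℕ, Common f b₁ ρ N m w → ∀ p : ℕ, p.Prime → |(p : ℝ) - G w| ≤ (w : ℝ) ^ κ →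
            MostlyPrimRoots F B p}.ncard : ℝ) ≤ N * Real.exp (-(Real.log N ^ c₁))) ∧
    (LM Nat.totient ∧ LM (fun m => ∑ d ∈ m.divisors, d)) ∧
    (∀ α d : ℝ, 0 < α → 1 ≤ d → Expanding (fun v => α * (v : ℝ) ^ d) d) ∧
    (∀ (f : ℕ → ℕ) (b ρ : ℝ) (N m w : ℕ), ρ ≤ 1 → Real.exp (Real.log N ^ b) ≤ (w : ℝ) → w ∣ f m → Common f b ρ N m w) ∧
    ∀ (b ρ : ℝ) (N m : ℕ), ρ ≤ 1 → ∀ x : (ZMod m)ˣ, Real.exp (Real.log N ^ b) ≤ (orderOf x : ℝ) →
      Common Nat.totient b ρ N m (orderOf x) := by
  refine ⟨fun ε hε B => ?_, ⟨lm_totient, lm_sigma⟩, fun α d hα hd => expanding_pow hα hd, fun f b ρ N m w hρ hw hd => common_of_dvd hρ hw hd,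
    fun b ρ N m hρ x hx => common_order hρ x hx⟩
  set ε' : ℝ := min ε (1 / 2) with hε'
  have hε0 : 0 < ε' := lt_min hε (by norm_num)
  obtain ⟨A, hA⟩ := H595R2.PR.Gam_top ε' hε0
  obtain ⟨x₁, hx₁⟩ := hA A le_rfl
  obtain ⟨p₀, hp₀⟩ := H595R2.PR.core A (A + B + 2)
  set F := H595R2.PR.cands A (A + B + 2) with hF
  have hlen : ∀ p : ℕ, (F p).length = p.size ^ (A + B + 2) := fun p => by
    simp [hF, H595R2.PR.cands]
  have hmain : ∀ p : ℕ, p₀ ≤ p → p.Prime → H595R2.PR.Gam p (p.size ^ A) = ⊤ →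
      MostlyPrimRoots F B p := by
    intro p hp hpp ht
    have h0 : #{i ∈ range (p.size ^ (A + B + 2)) | ¬ IsPrimRoot p ((F p).getD i 0)} ≤
        p.size ^ (A + 1) := by
      refine le_trans (card_le_card ?_) ((hp₀ p hp hpp).trans (by rw [pow_succ]))
      intro i hi
      obtain ⟨h1, h2⟩ := mem_filter.1 hi
      exact mem_filter.2 ⟨h1, fun hg => h2 (prim_of_gen hpp hg ht)⟩
    unfold MostlyPrimRoots
    rw [hlen]
    calc p.size ^ B * _ ≤ p.size ^ B * p.size ^ (A + 1) := Nat.mul_le_mul_left _ h0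
      _ = p.size ^ (A + B + 1) := by ring
      _ ≤ p.size ^ (A + B + 2) := Nat.pow_le_pow_right (Nat.size_pos.2 hpp.pos) (by omega)
  refine ⟨A + B + 2, F, H595R2.PR.polyTime_cands A (A + B + 2), hlen, ?_⟩
  intro f hf G d κ ρ b₁ c₁ hG hκ h1 hρ hb hc₁ hcb
  obtain ⟨N₀, hN₀⟩ := common_win_nat {p : ℕ | p.Prime ∧ ¬ MostlyPrimRoots F B p} hf hG (s := ε)
    (κ := κ) hε.le hκ h1 hρ hb hc₁ hcb (by
      intro δ hδ
      refine ⟨(x₁ : ℝ) + p₀ + 1, fun X hX => ?_⟩
      have hX1 : (1 : ℝ) ≤ X := by exact_mod_cast hX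
      have hXp : (1 : ℝ) ≤ (X : ℝ) ^ (ε + δ) := Real.one_le_rpow hX1 (by positivity)
      have hsub : (Ioc 0 X).filter (fun t => t ∈ {p : ℕ | p.Prime ∧ ¬ MostlyPrimRoots F B p}) ⊆
          range p₀ ∪ (range (X + 1)).filter (fun p => p.Prime ∧
            H595R2.PR.Gam p (p.size ^ A) ≠ ⊤) := by
        intro p hp
        obtain ⟨h1, h2, h3⟩ := mem_filter.1 hp
        rw [mem_union, mem_range]
        by_contra hc
        push Not at hc
        obtain ⟨h4, h5⟩ := hc
        have h6 : H595R2.PR.Gam p (p.size ^ A) = ⊤ := by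
          by_contra h7
          exact h5 (mem_filter.2 ⟨mem_range.2 (by have := (mem_Ioc.1 h1).2; omega), h2, h7⟩)
        exact h3 (hmain p h4 h2 h6)
      have h9 := (card_le_card hsub).trans (card_union_le _ _)
      rw [card_range] at h9
      have h10 : (((Ioc 0 X).filter (fun t => t ∈ {p : ℕ | p.Prime ∧ ¬ MostlyPrimRoots F B p})).card : ℝ) ≤
          p₀ + #((range (X + 1)).filter (fun p => p.Prime ∧
          H595R2.PR.Gam p (p.size ^ A) ≠ ⊤)) := by exact_mod_cast h9
      have h11 : (#((range (X + 1)).filter (fun p => p.Prime ∧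
          H595R2.PR.Gam p (p.size ^ A) ≠ ⊤)) : ℝ) ≤ (x₁ : ℝ) + (X : ℝ) ^ (ε + δ) := by
        rcases le_total x₁ X with hx | hx
        · refine (hx₁ X hx).trans ?_
          have h12 : (X : ℝ) ^ ε' ≤ (X : ℝ) ^ (ε + δ) :=
            Real.rpow_le_rpow_of_exponent_le hX1 ((min_le_left _ _).trans (by linarith))
          have h13 : (0 : ℝ) ≤ x₁ := by positivity
          linarith
        · have h12 : (#((range (X + 1)).filter (fun p => p.Prime ∧
              H595R2.PR.Gam p (p.size ^ A) ≠ ⊤)) : ℝ) ≤ X := by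
            have h13 : (range (X + 1)).filter (fun p => p.Prime ∧
                H595R2.PR.Gam p (p.size ^ A) ≠ ⊤) ⊆ Ioc 0 X := by
              intro p hp
              obtain ⟨h1, h2, _⟩ := mem_filter.1 hp
              exact mem_Ioc.2 ⟨h2.pos, by have := mem_range.1 h1; omega⟩
            have h14 := card_le_card h13
            rw [Nat.card_Ioc, Nat.sub_zero] at h14
            exact_mod_cast h14
          have h15 : (X : ℝ) ≤ x₁ := by exact_mod_cast hx
          linarith
      have h16 : (0 : ℝ) ≤ (x₁ : ℝ) + p₀ := by positivity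
      have h17 : (0 : ℝ) ≤ ((x₁ : ℝ) + p₀) * ((X : ℝ) ^ (ε + δ) - 1) :=
        mul_nonneg h16 (by linarith)
      have h18 : (x₁ : ℝ) + p₀ + (X : ℝ) ^ (ε + δ) ≤ ((x₁ : ℝ) + p₀ + 1) * (X : ℝ) ^ (ε + δ) := by
        nlinarith
      refine le_trans ?_ h18
      refine le_trans (le_of_eq ?_) (h10.trans (by linarith))
      congr!)
  refine ⟨N₀, fun N hN => le_trans ?_ (hN₀ N hN)⟩
  have hfin : {m : ℕ | 1 ≤ m ∧ m ≤ N ∧ ∃ w : ℕ, Common f b₁ ρ N m w ∧ ∃ n : ℕ, (n = 0 ∨ n ∈ {p : ℕ | p.Prime ∧
      ¬ MostlyPrimRoots F B p}) ∧ |(n : ℝ) - G w| ≤ (w : ℝ) ^ κ}.Finite := by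
    apply (Set.finite_Icc 1 N).subset
    intro m hm
    exact ⟨hm.1, hm.2.1⟩
  have h2 : {m : ℕ | 1 ≤ m ∧ m ≤ N ∧ ¬ ∀ w : ℕ, Common f b₁ ρ N m w → ∀ p : ℕ, p.Prime → |(p : ℝ) - G w| ≤ (w : ℝ) ^ κ →
      MostlyPrimRoots F B p} ⊆ {m : ℕ | 1 ≤ m ∧ m ≤ N ∧ ∃ w : ℕ, Common f b₁ ρ N m w ∧ ∃ n : ℕ, (n = 0 ∨ n ∈ {p : ℕ | p.Prime ∧
      ¬ MostlyPrimRoots F B p}) ∧ |(n : ℝ) - G w| ≤ (w : ℝ) ^ κ} := by
    rintro m ⟨h2, h3, h4⟩
    push Not at h4
    obtain ⟨w, hw, n, hn, h5, h6⟩ := h4
    exact ⟨h2, h3, w, hw, n, Or.inr ⟨hn, h6⟩, h5⟩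
  exact_mod_cast Set.ncard_le_ncard h2 hfin

end Pool.Agent.Results.MP_18a8a6_lc.CommonFactors
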