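import Pool.Agent.U449.BV.C
import Pool.Agent.Results.MP_18a8a6_lc.MultiplicativeValues

/-!
# Primitive roots modulo all primes near `f(a, b) + g(a) + h(b)`, `a`, `b` in arbitrary sets

For every `ε > 0` and every `B` there are `C` and a deterministic polynomial-time algorithm which for a prime `p` with `n` binary
digits produces `n ^ C` numbers with the following property. Let `κ ≥ 0`, `ε + κ < δ ≤ 1`. Let `f(x, y)` be ANY integer polynomial
with a monomial which contains both variables, `A₁`, `A₂` ARBITRARY finite sets of at least `X ^ δ` integers, and `g`, `h` ARBITRARY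
real functions such that `|f(a, b) + g(a) + h(b)| ≤ X` on `A₁ × A₂`. Then for all the pairs `(a, b)`, apart from a proportion of at
most `X ^ (-ρ)`, for EVERY prime `p` with `|p - (f(a, b) + g(a) + h(b))| ≤ X ^ κ`, all the numbers but a proportion of `n ^ (-B)`
are primitive roots modulo `p`. The same holds for the values of all functions `F(a, b)` of two variables with few
coincidences (`Rare`).

Since the sets and `g` and `h` are arbitrary, the values have no arithmetic structure, and a value can be taken by very many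
pairs. So the bound `x ^ ε` for the number of the exceptional primes does not give the result directly. Proof: the inequality of
Cauchy and Schwarz; for most pairs `a, a'` the difference `F(a, b) - F(a', b)` is small for few `b` (`Pool.Agent.U449.BV`).
-/

set_option autoImplicit false

namespace Pool.Agent.Results.MP_18a8a6_lc.MixedPolynomials

open Finset
open Pool.Agent.U449.BV (Rare OnProducts on_products_nat rare_poly)
open Pool.Agent.Results.MP_18a8a6_lc.MultiplicativeValues (PolyTimeList IsPrimRoot MostlyPrimRoots prim_of_gen)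

/-- For every prime `p` with `|p - x| ≤ W`, all but a fraction `(size p) ^ (-B)` of the entries of the list `F p` are
primitive roots modulo `p`. -/
def Near (F : ℕ → List ℕ) (B : ℕ) (W x : ℝ) : Prop :=
  ∀ p : ℕ, p.Prime → |(p : ℝ) - x| ≤ W → MostlyPrimRoots F B p

/-- **Theorem.** For every `ε > 0` and every `B` there are `C` and a polynomial-time computable list `F p` of `n ^ C` numbers,
`n` the number of binary digits of `p`, such that for all `κ ≥ 0` the property `Near`, with windows of length `X ^ κ`, holds for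
almost all values of functions of two variables with few coincidences, on arbitrary finite sets of at least `X ^ δ` elements,
`δ > ε + κ` (`OnProducts`). In particular this is so for the values `f(a, b) + g(a) + h(b)`, where `f` is any integer
polynomial with a monomial which contains both variables, `g` and `h` are arbitrary real functions, and `a` and `b` run through
arbitrary finite sets of integers. -/
theorem result :
    (∀ (ε : ℝ), 0 < ε → ∀ B : ℕ, ∃ (C : ℕ) (F : ℕ → List ℕ), PolyTimeList F ∧
      (∀ p : ℕ, (F p).length = p.size ^ C) ∧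
      ∀ κ : ℝ, 0 ≤ κ → OnProducts (ε + κ) κ (Near F B)) ∧
    ∀ (d : ℕ) (f : MvPolynomial (Fin 2) ℤ), f.totalDegree ≤ d → (∃ m ∈ f.support, m 0 ≠ 0 ∧ m 1 ≠ 0) →
      ∀ (g h : ℤ → ℝ) (A B : Finset ℤ),
        Rare d A B (fun a b => ((MvPolynomial.eval ![a, b] f : ℤ) : ℝ) + g a + h b) := by
  classical
  refine ⟨?_, fun d f hd hf g h A B => rare_poly hd hf g h A B⟩
  intro ε hε B
  set ε' : ℝ := min ε (1 / 2) with hε'
  have hε0 : 0 < ε' := lt_min hε (by norm_num)
  obtain ⟨A, hA⟩ := H595R2.PR.Gam_top ε' hε0
  obtain ⟨x₁, hx₁⟩ := hA A le_rfl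
  obtain ⟨p₀, hp₀⟩ := H595R2.PR.core A (A + B + 2)
  set F := H595R2.PR.cands A (A + B + 2) with hF
  have hlen : ∀ p : ℕ, (F p).length = p.size ^ (A + B + 2) := fun p => by
    simp [hF, H595R2.PR.cands]
  have hmain : ∀ p : ℕ, p₀ ≤ p → p.Prime → H595R2.PR.Gam p (p.size ^ A) = ⊤ →
      MostlyPrimRoots F B p := by
    intro p hp hpp ht
    have h0 : #{i ∈ range (p.size ^ (A + B + 2)) | ¬ IsPrimRoot p ((F p).getD i 0)} ≤
        p.size ^ (A + 1) := by
      refine le_trans (card_le_card ?_) ((hp₀ p hp hpp).trans (by rw [pow_succ]))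
      intro i hi
      obtain ⟨h1, h2⟩ := mem_filter.1 hi
      exact mem_filter.2 ⟨h1, fun hg => h2 (prim_of_gen hpp hg ht)⟩
    unfold MostlyPrimRoots
    rw [hlen]
    calc p.size ^ B * _ ≤ p.size ^ B * p.size ^ (A + 1) := Nat.mul_le_mul_left _ h0
      _ = p.size ^ (A + B + 1) := by ring
      _ ≤ p.size ^ (A + B + 2) := Nat.pow_le_pow_right (Nat.size_pos.2 hpp.pos) (by omega)
  refine ⟨A + B + 2, F, H595R2.PR.polyTime_cands A (A + B + 2), hlen, ?_⟩
  intro κ hκ
  have hV := on_products_nat {p : ℕ | p.Prime ∧ ¬ MostlyPrimRoots F B p} (s := ε)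
    (κ := κ) hε.le hκ (by
      intro δ hδ
      refine ⟨(x₁ : ℝ) + p₀ + 1, fun X hX => ?_⟩
      have hX1 : (1 : ℝ) ≤ X := by exact_mod_cast hX
      have hXp : (1 : ℝ) ≤ (X : ℝ) ^ (ε + δ) := Real.one_le_rpow hX1 (by positivity)
      have hsub : (Ioc 0 X).filter (fun t => t ∈ {p : ℕ | p.Prime ∧ ¬ MostlyPrimRoots F B p}) ⊆
          range p₀ ∪ (range (X + 1)).filter (fun p => p.Prime ∧
            H595R2.PR.Gam p (p.size ^ A) ≠ ⊤) := by
        intro p hp
        obtain ⟨h1, h2, h3⟩ := mem_filter.1 hp
        rw [mem_union, mem_range]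
        by_contra hc
        push Not at hc
        obtain ⟨h4, h5⟩ := hc
        have h6 : H595R2.PR.Gam p (p.size ^ A) = ⊤ := by
          by_contra h7
          exact h5 (mem_filter.2 ⟨mem_range.2 (by have := (mem_Ioc.1 h1).2; omega), h2, h7⟩)
        exact h3 (hmain p h4 h2 h6)
      have h9 := (card_le_card hsub).trans (card_union_le _ _)
      rw [card_range] at h9
      have h10 : (((Ioc 0 X).filter (fun t => t ∈ {p : ℕ | p.Prime ∧ ¬ MostlyPrimRoots F B p})).card : ℝ) ≤
          p₀ + #((range (X + 1)).filter (fun p => p.Prime ∧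
          H595R2.PR.Gam p (p.size ^ A) ≠ ⊤)) := by exact_mod_cast h9
      have h11 : (#((range (X + 1)).filter (fun p => p.Prime ∧
          H595R2.PR.Gam p (p.size ^ A) ≠ ⊤)) : ℝ) ≤ (x₁ : ℝ) + (X : ℝ) ^ (ε + δ) := by
        rcases le_total x₁ X with hx | hx
        · refine (hx₁ X hx).trans ?_
          have h12 : (X : ℝ) ^ ε' ≤ (X : ℝ) ^ (ε + δ) :=
            Real.rpow_le_rpow_of_exponent_le hX1 ((min_le_left _ _).trans (by linarith))
          have h13 : (0 : ℝ) ≤ x₁ := by positivity
          linarith
        · have h12 : (#((range (X + 1)).filter (fun p => p.Prime ∧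
              H595R2.PR.Gam p (p.size ^ A) ≠ ⊤)) : ℝ) ≤ X := by
            have h13 : (range (X + 1)).filter (fun p => p.Prime ∧
                H595R2.PR.Gam p (p.size ^ A) ≠ ⊤) ⊆ Ioc 0 X := by
              intro p hp
              obtain ⟨h1, h2, _⟩ := mem_filter.1 hp
              exact mem_Ioc.2 ⟨h2.pos, by have := mem_range.1 h1; omega⟩
            have h14 := card_le_card h13
            rw [Nat.card_Ioc, Nat.sub_zero] at h14
            exact_mod_cast h14
          have h15 : (X : ℝ) ≤ x₁ := by exact_mod_cast hx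
          linarith
      have h16 : (0 : ℝ) ≤ (x₁ : ℝ) + p₀ := by positivity
      have h17 : (0 : ℝ) ≤ ((x₁ : ℝ) + p₀) * ((X : ℝ) ^ (ε + δ) - 1) :=
        mul_nonneg h16 (by linarith)
      have h18 : (x₁ : ℝ) + p₀ + (X : ℝ) ^ (ε + δ) ≤ ((x₁ : ℝ) + p₀ + 1) * (X : ℝ) ^ (ε + δ) := by
        nlinarith
      refine le_trans ?_ h18
      refine le_trans (le_of_eq ?_) (h10.trans (by linarith))
      congr!)
  refine hV.mono fun W x _ hg p hp hw => ?_
  by_contra hno
  exact (hg p hw).2 ⟨hp, hno⟩

end Pool.Agent.Results.MP_18a8a6_lc.MixedPolynomials
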