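import Pool.Agent.U405.RS.F
import Pool.Agent.U405.RS.F2
import Pool.Agent.H595R2.PR.Core
import Pool.Agent.H595R2.PR.FEW

/-!
# Primitive roots modulo EVERY prime near values of `f` at thin sets of arguments

Let `f` be a positive multiplicative function of at most polynomial growth which for each `a ≥ 1` is injective at the powers
`p ^ a` of the large primes and at most `M p ^ a` there; for example Euler's function or the sum of the divisors. Let `α > 0`, `d ≥ 1` and `κ ≥ 0`. For all `ε > 0` and `B` there is one polynomial-time computable list `F p` such that for EVERY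
prime `p` with `|p - α f(v)^d| ≤ f(v)^κ` all but a fraction `(size p)^(-B)` of the entries of `F p` are primitive roots modulo `p`,
for almost all `v` (with a saving of any power of the logarithm) in each of these sets, `e = d ε + κ`:

* the values of any integer polynomial without repeated roots, of degree `< 1 / e`;
* the shifted primes `p + a`, `a` any integer, if `e < 1`;
* the intervals `(x, x + y]`, `x^τ ≤ y ≤ x`, for every `τ > e`, `τ ≤ 1`.

Since `ε` is arbitrary, the polynomials can have any degree and the intervals the length `x^τ` for any `τ > 0` (for `κ = 0`). For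
instance, for every `k` one algorithm finds primitive roots modulo all primes `p` with `|p - φ(m^k + 1)| ≤ 10`, for almost all
`m`; and modulo all primes `p` with `|p - σ(q + 1)| ≤ q^0.9` for almost all primes `q`.

Proof. Own tool `Pool.Agent.U405.RS`: let `S` be a set of at least `N^(θ + δ)` integers up to `N` with at most
`B g^ω(k) |S| / k` multiples of `k` for every `k ≤ N^δ`, and let `W` have at most `C X^θ` elements up to `X`. Then `f(m) ∈ W` for at
most `|S| / (log N)^U` of the `m` in `S`. For this write `m = k w` with `k` composed of the primes `≤ z = N^(1 / J)`, `J` a small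
multiple of `log log N`. By Rankin's method with the weights `g^ω(k)` one has `k ≤ N^η` for most `m`; and `w` has at most `J`
prime factors and exponents `≤ J`, so that `w` is determined by `f(w)` up to `(J τ(f(w)) + 1)^J = N^o(1)` possibilities. The three
kinds of sets satisfy the hypothesis: for polynomials because `P` has at most `g` zeros modulo every prime power (lifting of
zeros by the identity `U P + V P' = R`), for shifted primes by the Brun-Titchmarsh inequality (library). The number of exceptional
primes is `O(X^ε)` for every `ε` by the theorems on the subgroups generated by small numbers in the starting library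
(`Pool.Agent.H595R2.PR`).
-/

set_option autoImplicit false

namespace Pool.Agent.Results.MP_18a8a6_lc.SparseArguments

open Finset
open Pool.Agent.N733.TG (Expanding expanding_pow)
open Pool.Agent.U405.RS (PM Sparse sparse_nat examples)

/-- `F` is computable in polynomial time: some function on bit strings computed by a Turing machine
(Mathlib's `TM2ComputableInPolyTime`) in polynomially many steps sends the binary digits of `p` to
the code of the list `F p`. -/
def PolyTimeList (F : ℕ → List ℕ) : Prop :=
  ∃ f : List Bool → List Bool, NPC.PolyTime f ∧ ∀ p : ℕ, f (Nat.bits p) = NPC.bits (F p)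

/-- `g` is a primitive root modulo `p` -/
def IsPrimRoot (p g : ℕ) : Prop := orderOf (g : ZMod p) = p - 1

open Classical in
/-- all but a fraction `(size p) ^ (-B)` of the entries of the list `F p` are primitive roots modulo `p` -/
def MostlyPrimRoots (F : ℕ → List ℕ) (B p : ℕ) : Prop :=
  p.size ^ B * #{i ∈ range (F p).length | ¬ IsPrimRoot p ((F p).getD i 0)} ≤ (F p).length

section aux

open H595R2.PR

theorem prim_of_gen {A C p a : ℕ} (hp : p.Prime) (h : Gen A C p a) (ht : Gam p (p.size ^ A) = ⊤) :
    IsPrimRoot p ((cands A C p).getD a 0) := by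
  have : Fact p.Prime := ⟨hp⟩
  obtain ⟨u, hu1, hu2⟩ := h
  unfold IsPrimRoot
  rw [← hu1, orderOf_units, ← Nat.card_zpowers, hu2, ht, Subgroup.card_top,
    Nat.card_eq_fintype_card, ZMod.card_units]

end aux

open Classical in
/-- for EVERY prime `p` with `|p - G v| ≤ v ^ κ` most entries of `F p` are primitive roots -/
def Clear (F : ℕ → List ℕ) (B : ℕ) (G : ℕ → ℝ) (κ : ℝ) (v : ℕ) : Prop :=
  ∀ p : ℕ, p.Prime → |(p : ℝ) - G v| ≤ (v : ℝ) ^ κ → MostlyPrimRoots F B p

open Classical in
/-- **Primitive roots near `G (f v)` for the `v` in thin sets.** For every `ε > 0` and every `B` there are `C` and a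
polynomial-time computable list `F p` of `n ^ C` numbers, `n` the number of binary digits of `p`, such that for all `f` in the
class `PM`, all `G` with steps `≥ const > 0` and growth at most `v^d`, all `κ ≥ 0` and all `U` the property that for EVERY prime
`p` with `|p - G v| ≤ v^κ` all but a fraction `(size p) ^ (-B)` of the entries of `F p` are primitive roots modulo `p` holds in
the sense `Sparse e f`, `e = d ε + κ`. (`Sparse e f`: with a saving of `(log x)^U` it holds at `f v` for almost all `v` among the positive values of every integer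
polynomial without repeated roots of degree `< 1 / e`; among the shifted primes `p + a` for every `a`, if `e < 1`; and in all
intervals `(x, x + y]`, `x^τ ≤ y ≤ x`, `e < τ ≤ 1`.) Euler's function and the sum of the divisors are in the class `PM`, and
`α v^d` with `α > 0`, `d ≥ 1` is an example of `G`. -/
theorem result :
    (∀ ε : ℝ, 0 < ε → ∀ B : ℕ, ∃ (C : ℕ) (F : ℕ → List ℕ), PolyTimeList F ∧
      (∀ p : ℕ, (F p).length = p.size ^ C) ∧
      ∀ f : ℕ → ℕ, PM f → ∀ (G : ℕ → ℝ) (d κ : ℝ), Expanding G d → 0 ≤ κ → ∀ U : ℕ,
        Sparse (d * ε + κ) f (Clear F B G κ) U) ∧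
    (PM Nat.totient ∧ PM (fun m => ∑ d ∈ m.divisors, d) ∧ PM (fun m => m)) ∧
    ∀ α d : ℝ, 0 < α → 1 ≤ d → Expanding (fun v => α * (v : ℝ) ^ d) d := by
  refine ⟨fun ε hε B => ?_, examples, fun α d hα hd => expanding_pow hα hd⟩
  set ε' : ℝ := min ε (1 / 2) with hε'
  have hε0 : 0 < ε' := lt_min hε (by norm_num)
  obtain ⟨A, hA⟩ := H595R2.PR.Gam_top ε' hε0
  obtain ⟨x₁, hx₁⟩ := hA A le_rfl
  obtain ⟨p₀, hp₀⟩ := H595R2.PR.core A (A + B + 2)
  set F := H595R2.PR.cands A (A + B + 2) with hF
  have hlen : ∀ p : ℕ, (F p).length = p.size ^ (A + B + 2) := fun p => by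
    simp [hF, H595R2.PR.cands]
  have hmain : ∀ p : ℕ, p₀ ≤ p → p.Prime → H595R2.PR.Gam p (p.size ^ A) = ⊤ →
      MostlyPrimRoots F B p := by
    intro p hp hpp ht
    have h0 : #{i ∈ range (p.size ^ (A + B + 2)) | ¬ IsPrimRoot p ((F p).getD i 0)} ≤
        p.size ^ (A + 1) := by
      refine le_trans (card_le_card ?_) ((hp₀ p hp hpp).trans (by rw [pow_succ]))
      intro i hi
      obtain ⟨h1, h2⟩ := mem_filter.1 hi
      exact mem_filter.2 ⟨h1, fun hg => h2 (prim_of_gen hpp hg ht)⟩
    unfold MostlyPrimRoots
    rw [hlen]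
    calc p.size ^ B * _ ≤ p.size ^ B * p.size ^ (A + 1) := Nat.mul_le_mul_left _ h0
      _ = p.size ^ (A + B + 1) := by ring
      _ ≤ p.size ^ (A + B + 2) := Nat.pow_le_pow_right (Nat.size_pos.2 hpp.pos) (by omega)
  refine ⟨A + B + 2, F, H595R2.PR.polyTime_cands A (A + B + 2), hlen, ?_⟩
  intro f hf G d κ hG hκ U
  refine (sparse_nat (fun p => p.Prime) (MostlyPrimRoots F B) hf hG (s := ε) (κ := κ) hε.le hκ (by
      intro δ hδ
      refine ⟨(x₁ : ℝ) + p₀ + 1, fun X hX => ?_⟩
      have hX1 : (1 : ℝ) ≤ X := by exact_mod_cast hX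
      have hXp : (1 : ℝ) ≤ (X : ℝ) ^ (ε + δ) := Real.one_le_rpow hX1 (by positivity)
      have hsub : (Ioc 0 X).filter (fun t => t ∈ {p : ℕ | p.Prime ∧ ¬ MostlyPrimRoots F B p}) ⊆
          range p₀ ∪ (range (X + 1)).filter (fun p => p.Prime ∧
            H595R2.PR.Gam p (p.size ^ A) ≠ ⊤) := by
        intro p hp
        obtain ⟨h1, h2, h3⟩ := mem_filter.1 hp
        rw [mem_union, mem_range]
        by_contra hc
        push Not at hc
        obtain ⟨h4, h5⟩ := hc
        have h6 : H595R2.PR.Gam p (p.size ^ A) = ⊤ := by
          by_contra h7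
          exact h5 (mem_filter.2 ⟨mem_range.2 (by have := (mem_Ioc.1 h1).2; omega), h2, h7⟩)
        exact h3 (hmain p h4 h2 h6)
      have h9 := (card_le_card hsub).trans (card_union_le _ _)
      rw [card_range] at h9
      have h10 : (((Ioc 0 X).filter (fun t => t ∈ {p : ℕ | p.Prime ∧ ¬ MostlyPrimRoots F B p})).card : ℝ) ≤
          p₀ + #((range (X + 1)).filter (fun p => p.Prime ∧
          H595R2.PR.Gam p (p.size ^ A) ≠ ⊤)) := by exact_mod_cast h9
      have h11 : (#((range (X + 1)).filter (fun p => p.Prime ∧
          H595R2.PR.Gam p (p.size ^ A) ≠ ⊤)) : ℝ) ≤ (x₁ : ℝ) + (X : ℝ) ^ (ε + δ) := by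
        rcases le_total x₁ X with hx | hx
        · refine (hx₁ X hx).trans ?_
          have h12 : (X : ℝ) ^ ε' ≤ (X : ℝ) ^ (ε + δ) :=
            Real.rpow_le_rpow_of_exponent_le hX1 ((min_le_left _ _).trans (by linarith))
          have h13 : (0 : ℝ) ≤ x₁ := by positivity
          linarith
        · have h12 : (#((range (X + 1)).filter (fun p => p.Prime ∧
              H595R2.PR.Gam p (p.size ^ A) ≠ ⊤)) : ℝ) ≤ X := by
            have h13 : (range (X + 1)).filter (fun p => p.Prime ∧
                H595R2.PR.Gam p (p.size ^ A) ≠ ⊤) ⊆ Ioc 0 X := by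
              intro p hp
              obtain ⟨h1, h2, _⟩ := mem_filter.1 hp
              exact mem_Ioc.2 ⟨h2.pos, by have := mem_range.1 h1; omega⟩
            have h14 := card_le_card h13
            rw [Nat.card_Ioc, Nat.sub_zero] at h14
            exact_mod_cast h14
          have h15 : (X : ℝ) ≤ x₁ := by exact_mod_cast hx
          linarith
      have h16 : (0 : ℝ) ≤ (x₁ : ℝ) + p₀ := by positivity
      have h17 : (0 : ℝ) ≤ ((x₁ : ℝ) + p₀) * ((X : ℝ) ^ (ε + δ) - 1) :=
        mul_nonneg h16 (by linarith)
      have h18 : (x₁ : ℝ) + p₀ + (X : ℝ) ^ (ε + δ) ≤ ((x₁ : ℝ) + p₀ + 1) * (X : ℝ) ^ (ε + δ) := by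
        nlinarith
      refine le_trans ?_ h18
      refine le_trans (le_of_eq ?_) (h10.trans (by linarith))
      rw [← Set.ncard_coe_finset]
      congr 2
      ext t
      simp only [Set.mem_ofPred_eq, Finset.coe_filter, Finset.mem_Ioc]
      constructor
      · rintro ⟨j1, j2, j3, j4⟩
        exact ⟨⟨by omega, j2⟩, j3, j4⟩
      · rintro ⟨⟨j1, j2⟩, j3, j4⟩
        exact ⟨by omega, j2, j3, j4⟩) U).imp (fun v hv p hp hw => hv p hp.pos hp hw)

end Pool.Agent.Results.MP_18a8a6_lc.SparseArguments
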